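import Pool.Agent.U308.LP.RepZ
import Pool.Agent.N469.LP.Cnt

set_option autoImplicit false

/-! Sums over primes of the form `m - q` with arbitrary bounded weights on `q`, for all the integers `m` near almost all
very smooth numbers. -/

namespace Pool.Agent.U308.AW
open Finset
open Pool.Agent.H373R2.T7
open Pool.Agent.U308.TL (Cond2)
open Pool.Agent.U308.SG (PR_cond2)
open Pool.Agent.N469.TL (count smooth_eq abs_val)
open Pool.Agent.N469.LP (pp_lin)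
open Pool.Agent.N469.SM (SS mem_SS)

/-- the product of `1 - 1/p` over the primes `p ≤ z` -/
noncomputable def V (z : ℕ) : ℝ := ∏ p ∈ (Icc 1 z).filter Nat.Prime, (1 - 1 / (p : ℝ))

open Classical in
/-- the sum of `g q log (m - q)` over the `q ≤ y`, `q ≡ a mod d`, with `m - q` prime -/
noncomputable def PS (g : ℕ → ℝ) (m d a y : ℕ) : ℝ :=
  ∑ q ∈ (Icc 1 y).filter (fun q => q ≡ a [MOD d] ∧ (m - q).Prime), g q * Real.log ((m - q : ℕ) : ℝ)

open Classical in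
/-- the sum of `g q / V z` over the `q ≤ y`, `q ≡ a mod d`, `q < m`, with `m - q` free of primes `p ≤ z` -/
noncomputable def MS (z : ℕ) (g : ℕ → ℝ) (m d a y : ℕ) : ℝ :=
  ∑ q ∈ (Icc 1 y).filter (fun q => q ≡ a [MOD d] ∧ q < m ∧ ∀ p : ℕ, p.Prime → p ≤ z → ¬ p ∣ m - q), g q / V z

lemma V_eq (z : ℕ) : V z = Vz z := by
  unfold V Vz
  apply prod_congr _ (fun _ _ => rfl)
  ext p
  rw [mem_pz, mem_filter, mem_Icc]
  constructor
  · rintro ⟨⟨_, h1⟩, h2⟩; exact ⟨h1, h2⟩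
  · rintro ⟨h1, h2⟩; exact ⟨⟨h2.one_lt.le, h1⟩, h2⟩

open Classical in
/-- the weight restricted to an initial interval and a class -/
noncomputable def gw (g : ℕ → ℝ) (d a y n : ℕ) : ℝ := if n ≤ y then (if n ≡ a [MOD d] then g n else 0) else 0

lemma gw_le (g : ℕ → ℝ) (d a y n : ℕ) (hg : |g n| ≤ 1) : |gw g d a y n| ≤ 1 := by
  unfold gw
  split_ifs
  · exact hg
  · rw [abs_zero]; exact zero_le_one
  · rw [abs_zero]; exact zero_le_one

lemma PS_eq (g : ℕ → ℝ) (m d a y X : ℕ) (hX : m ≤ X) :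
    PS g m d a y = ∑ n ∈ Icc 1 X, gw g d a y n * lamP (-1 * (n : ℤ) + m) := by
  classical
  unfold PS
  have e : (Icc 1 y).filter (fun q => q ≡ a [MOD d] ∧ (m - q).Prime) =
      (Icc 1 X).filter (fun q => q ≤ y ∧ q ≡ a [MOD d] ∧ (m - q).Prime) := by
    ext q
    rw [mem_filter, mem_filter, mem_Icc, mem_Icc]
    constructor
    · rintro ⟨⟨h1, h2⟩, h3, h4⟩
      have := h4.pos
      exact ⟨⟨h1, by omega⟩, h2, h3, h4⟩
    · rintro ⟨⟨h1, _⟩, h2, h3, h4⟩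
      exact ⟨⟨h1, h2⟩, h3, h4⟩
  rw [e, sum_filter]
  apply sum_congr rfl
  intro n _
  have e2 : (-1 * (n : ℤ) + m).toNat = m - n := by omega
  unfold gw lamP
  rw [e2]
  by_cases h1 : n ≤ y
  · by_cases h2 : n ≡ a [MOD d]
    · by_cases h3 : (m - n).Prime
      · rw [if_pos ⟨h1, h2, h3⟩, if_pos h1, if_pos h2, if_pos h3]
      · rw [if_neg (fun h => h3 h.2.2), if_neg h3, mul_zero]
    · rw [if_neg (fun h => h2 h.2.1), if_pos h1, if_neg h2, zero_mul]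
  · rw [if_neg (fun h => h1 h.1), if_neg h1, zero_mul]

lemma MS_eq (z : ℕ) (g : ℕ → ℝ) (m d a y X : ℕ) (hX : m ≤ X) :
    MS z g m d a y = ∑ n ∈ Icc 1 X, gw g d a y n * lamzI z (-1 * (n : ℤ) + m) := by
  classical
  unfold MS
  have e : (Icc 1 y).filter (fun q => q ≡ a [MOD d] ∧ q < m ∧ ∀ p : ℕ, p.Prime → p ≤ z → ¬ p ∣ m - q) =
      (Icc 1 X).filter (fun q => q ≤ y ∧ q ≡ a [MOD d] ∧ q < m ∧ ∀ p : ℕ, p.Prime → p ≤ z → ¬ p ∣ m - q) := by
    ext q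
    rw [mem_filter, mem_filter, mem_Icc, mem_Icc]
    constructor
    · rintro ⟨⟨h1, h2⟩, h3, h4, h5⟩
      exact ⟨⟨h1, by omega⟩, h2, h3, h4, h5⟩
    · rintro ⟨⟨h1, _⟩, h2, h3, h4⟩
      exact ⟨⟨h1, h2⟩, h3, h4⟩
  rw [e, sum_filter]
  apply sum_congr rfl
  intro n _
  unfold gw lamzI lamz
  rw [V_eq]
  have e2 : (-1 * (n : ℤ) + m).toNat = m - n := by omega
  rw [e2]
  have e3 : (∀ p ∈ pz z, ¬ p ∣ m - n) ↔ ∀ p : ℕ, p.Prime → p ≤ z → ¬ p ∣ m - n := by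
    constructor
    · intro h p h1 h2; exact h p (mem_pz.2 ⟨h2, h1⟩)
    · intro h p hp; exact h p (mem_pz.1 hp).2 (mem_pz.1 hp).1
  by_cases h1 : n ≤ y
  · by_cases h2 : n ≡ a [MOD d]
    · by_cases h3 : n < m
      · have h3' : 1 ≤ -1 * (n : ℤ) + m := by omega
        by_cases h4 : ∀ p : ℕ, p.Prime → p ≤ z → ¬ p ∣ m - n
        · rw [if_pos ⟨h1, h2, h3, h4⟩, if_pos h1, if_pos h2, if_pos h3', if_pos (e3.2 h4), div_eq_mul_inv]
        · rw [if_neg (fun h => h4 h.2.2.2), if_pos h1, if_pos h2, if_pos h3', if_neg (fun h => h4 (e3.1 h)), mul_zero]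
      · have h3' : ¬ 1 ≤ -1 * (n : ℤ) + m := by omega
        rw [if_neg (fun h => h3 h.2.2.1), if_neg h3', mul_zero]
    · rw [if_neg (fun h => h2 h.2.1), if_pos h1, if_neg h2, zero_mul]
  · rw [if_neg (fun h => h1 h.1), if_neg h1, zero_mul]

/-- the weighted difference -/
noncomputable def SD (z : ℕ) (g : ℕ → ℝ) (m d a y X : ℕ) : ℝ :=
  ∑ n ∈ Icc 1 X, gw g d a y n * (lamI (-1 * (n : ℤ) + m) - lamzI z (-1 * (n : ℤ) + m))

lemma diff_le (z : ℕ) (g : ℕ → ℝ) (hg : ∀ n, |g n| ≤ 1) (m d a y X : ℕ) (hX : m ≤ X) (hX1 : 1 ≤ X) :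
    |PS g m d a y - MS z g m d a y| ≤ |SD z g m d a y X| + 2 * √(X : ℝ) * Real.log X := by
  rw [PS_eq g m d a y X hX, MS_eq z g m d a y X hX]
  have h1 := pp_lin (-1) m (by norm_num) (Icc 1 X) X hX1 (fun n hn => by
    rw [mem_Icc] at hn
    omega)
  have e : ∑ n ∈ Icc 1 X, gw g d a y n * lamP (-1 * (n : ℤ) + m) - ∑ n ∈ Icc 1 X, gw g d a y n * lamzI z (-1 * (n : ℤ) + m) =
      SD z g m d a y X - ∑ n ∈ Icc 1 X, gw g d a y n * (lamI (-1 * (n : ℤ) + m) - lamP (-1 * (n : ℤ) + m)) := by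
    unfold SD
    rw [← sum_sub_distrib, ← sum_sub_distrib]
    apply sum_congr rfl
    intro n _
    ring
  have h2 : |∑ n ∈ Icc 1 X, gw g d a y n * (lamI (-1 * (n : ℤ) + m) - lamP (-1 * (n : ℤ) + m))| ≤
      ∑ n ∈ Icc 1 X, (lamI (-1 * (n : ℤ) + m) - lamP (-1 * (n : ℤ) + m)) := by
    refine (abs_sum_le_sum_abs _ _).trans (sum_le_sum fun n _ => ?_)
    have h3 : 0 ≤ lamI (-1 * (n : ℤ) + m) - lamP (-1 * (n : ℤ) + m) := by
      obtain ⟨k, hk⟩ : ∃ k, k = -1 * (n : ℤ) + m := ⟨_, rfl⟩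
      rw [← hk]
      unfold lamI lamP
      by_cases h4 : (k.toNat).Prime
      · have h5 := h4.pos
        rw [if_pos (by omega : 1 ≤ k), if_pos h4, ArithmeticFunction.vonMangoldt_apply_prime h4, sub_self]
      · rw [if_neg h4, sub_zero]
        split_ifs
        · exact ArithmeticFunction.vonMangoldt_nonneg
        · exact le_rfl
    rw [abs_mul, abs_of_nonneg h3]
    exact mul_le_of_le_one_left h3 (gw_le g d a y n (hg n))
  rw [e]
  refine (abs_sub _ _).trans ?_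
  linarith

lemma step (z : ℕ) (g : ℕ → ℝ) (hg : ∀ n, |g n| ≤ 1) (m d a y t s X : ℕ) (hX : m ≤ X) (ht : t ≤ y) (hys : y ≤ t + s) (M : ℝ)
    (hM1 : Real.log X ≤ M) (hM2 : (Vz z)⁻¹ ≤ M) (hM0 : 0 ≤ M) :
    |SD z g m d a y X - SD z g m d a t X| ≤ s * M := by
  unfold SD
  rw [← sum_sub_distrib]
  have h1 : ∀ n ∈ Icc 1 X, |gw g d a y n * (lamI (-1 * (n : ℤ) + m) - lamzI z (-1 * (n : ℤ) + m)) -
      gw g d a t n * (lamI (-1 * (n : ℤ) + m) - lamzI z (-1 * (n : ℤ) + m))| ≤ if n ∈ Ioc t y then M else 0 := by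
    intro n hn
    rw [mem_Icc] at hn
    rw [← sub_mul, abs_mul]
    have hD : |lamI (-1 * (n : ℤ) + m) - lamzI z (-1 * (n : ℤ) + m)| ≤ M := by
      obtain ⟨k, hk⟩ : ∃ k, k = -1 * (n : ℤ) + m := ⟨_, rfl⟩
      rw [← hk]
      have a1 : 0 ≤ lamI k := lamI_nonneg k
      have a2 : lamI k ≤ M := by
        unfold lamI
        split_ifs with h
        · refine ArithmeticFunction.vonMangoldt_le_log.trans (le_trans ?_ hM1)
          apply Real.log_le_log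
          · exact_mod_cast (by omega : 0 < k.toNat)
          · exact_mod_cast (by omega : k.toNat ≤ X)
        · exact hM0
      have a3 : 0 ≤ lamzI z k := by
        unfold lamzI
        split_ifs
        · exact lamz_nonneg _ _
        · exact le_rfl
      have a4 : lamzI z k ≤ M := by
        unfold lamzI lamz
        split_ifs
        · exact hM2
        · exact hM0
        · exact hM0
      rw [abs_le]
      constructor <;> linarith
    by_cases h2 : n ∈ Ioc t y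
    · rw [if_pos h2]
      rw [mem_Ioc] at h2
      have h3 : gw g d a t n = 0 := by unfold gw; rw [if_neg (by omega)]
      rw [h3, sub_zero]
      have h4 := gw_le g d a y n (hg n)
      calc _ ≤ 1 * M := mul_le_mul h4 hD (abs_nonneg _) zero_le_one
        _ = M := one_mul _
    · rw [if_neg h2]
      rw [mem_Ioc] at h2
      have h3 : gw g d a y n = gw g d a t n := by
        unfold gw
        by_cases h4 : n ≤ t
        · rw [if_pos h4, if_pos (by omega)]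
        · rw [if_neg h4, if_neg (by omega)]
      rw [h3, sub_self, abs_zero, zero_mul]
  refine (abs_sum_le_sum_abs _ _).trans ((sum_le_sum h1).trans ?_)
  rw [← sum_filter, sum_const, nsmul_eq_mul]
  apply mul_le_mul_of_nonneg_right _ hM0
  have h2 : ((Icc 1 X).filter (fun n => n ∈ Ioc t y)).card ≤ (Ioc t y).card := by
    apply card_le_card
    intro n hn
    exact (mem_filter.1 hn).2
  rw [Nat.card_Ioc] at h2
  exact_mod_cast (by omega : ((Icc 1 X).filter (fun n => n ∈ Ioc t y)).card ≤ s)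

lemma SD_min (z : ℕ) (g : ℕ → ℝ) (m d a y X : ℕ) : SD z g m d a y X = SD z g m d a (min y X) X := by
  unfold SD
  apply sum_congr rfl
  intro n hn
  rw [mem_Icc] at hn
  have : gw g d a y n = gw g d a (min y X) n := by
    unfold gw
    by_cases h : n ≤ y
    · rw [if_pos h, if_pos (show n ≤ min y X by omega)]
    · rw [if_neg h, if_neg (show ¬ n ≤ min y X by omega)]
  rw [this]

lemma SD_mod (z : ℕ) (g : ℕ → ℝ) (m d a y X : ℕ) : SD z g m d a y X = SD z g m d (a % d) y X := by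
  unfold SD
  apply sum_congr rfl
  intro n _
  have : gw g d a y n = gw g d (a % d) y n := by
    unfold gw
    have e : (n ≡ a [MOD d]) ↔ (n ≡ a % d [MOD d]) := by
      unfold Nat.ModEq
      rw [Nat.mod_mod]
    by_cases h : n ≡ a [MOD d]
    · rw [if_pos h, if_pos (e.1 h)]
    · rw [if_neg h, if_neg (fun h' => h (e.2 h'))]
  rw [this]

/-- The main theorem for a family of weights. -/
theorem aw (κ : ℤ) (hκ : κ ≠ 0) (K B A T Q D U : ℕ) (δ : ℝ) (hδ : 0 < δ) : ∃ B₀ : ℕ, ∀ E : ℕ, ∃ N₀ : ℕ, ∀ N, N₀ ≤ N →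
    ∀ P y, Cond2 δ K N P y → ∀ z : ℕ, Real.log N ^ B₀ ≤ z → (z : ℝ) ≤ Real.log N ^ E → ∀ Ev : ℕ → Prop, ∀ _ : DecidablePred Ev,
    (∃ c : ℤ, |c| ≤ B * N ∧ ∃ L : ℕ, (L : ℝ) ≤ Real.log N ^ T ∧ ∃ g : Fin L → ℕ → ℝ, (∀ l n, |g l n| ≤ 1) ∧ ∀ v, Ev v →
      ∃ m : ℕ, |((m - (c + κ * v) : ℤ) : ℝ)| ≤ Real.log N ^ A ∧ ∃ l, ∃ y d a : ℕ, 1 ≤ d ∧ (d : ℝ) ≤ Real.log N ^ Q ∧
        N / Real.log N ^ D < |PS (g l) m d a y - MS z (g l) m d a y|) →
    ∑ v ∈ SS P N, (if Ev v then 1 / ((SS P N).card : ℝ) else 0) ≤ 1 / Real.log N ^ U := by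
  classical
  obtain ⟨Bc, hBc⟩ : ∃ Bc, Bc = B + κ.natAbs + 1 := ⟨_, rfl⟩
  obtain ⟨J, hJ⟩ : ∃ J, J = D + 3 := ⟨_, rfl⟩
  obtain ⟨T', hT'⟩ : ∃ T', T' = T + (2 * (Q + 1) + (J + 1)) := ⟨_, rfl⟩
  obtain ⟨U', hU'⟩ : ∃ U', U' = U + (D + 2) := ⟨_, rfl⟩
  obtain ⟨B₀, hB⟩ := Pool.Agent.U308.LP.sm_repZ2 κ hκ (-1) (by norm_num) K Bc A T' U' δ hδ
  refine ⟨B₀, fun E => ?_⟩
  obtain ⟨N1, h1⟩ := hB E
  obtain ⟨N2, h2⟩ := Vz_inv_small E
  obtain ⟨N3, h3⟩ := ev_L' (2 * ((Bc + 2 : ℕ) : ℝ) + Real.log ((Bc + 1 : ℕ) : ℝ) + 8)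
  obtain ⟨N4, h4⟩ := ev_log' A 1
  obtain ⟨N5, h5⟩ := ev_log' (D + 3) (4 * Bc)
  refine ⟨N1 + N2 + N3 + N4 + N5 + 4, fun N hN P y₀ hP z hz1 hz2 Ev _ hE => ?_⟩
  obtain ⟨c, hcc, L₁, hL₁, g, hg, hbad⟩ := hE
  have hL := h3 N (by omega)
  have hA := h4 N (by omega)
  have hD := h5 N (by omega)
  rw [one_mul] at hA
  have hN0 : (0 : ℝ) < N := by exact_mod_cast (by omega : 0 < N)
  obtain ⟨L, hLd⟩ : ∃ L, L = Real.log (N : ℝ) := ⟨_, rfl⟩
  have k1 := h1 N (by omega) P y₀ hP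
  have p2 : 0 ≤ Real.log ((Bc + 1 : ℕ) : ℝ) := Real.log_natCast_nonneg _
  have p1 : (2 : ℝ) ≤ ((Bc + 2 : ℕ) : ℝ) := by exact_mod_cast (by omega : 2 ≤ Bc + 2)
  have hz : 1 ≤ z := by
    by_contra hcon
    have : z = 0 := by omega
    rw [this, ← hLd] at hz1
    rw [← hLd] at hL
    have : 0 < L ^ B₀ := by
      apply pow_pos
      linarith
    push_cast at hz1
    linarith
  have hV := h2 N (by omega) z hz hz2
  rw [← hLd] at hL hA hD k1 hbad hV hL₁ hz1 hz2 ⊢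
  have hL8 : 8 ≤ L := by linarith
  have hL1 : 1 ≤ L := by linarith
  have hL0 : 0 < L := by linarith
  have hss : √(N : ℝ) * √(N : ℝ) = N := Real.mul_self_sqrt hN0.le
  have hs1 : 1 ≤ √(N : ℝ) := by
    rw [Real.one_le_sqrt]
    exact_mod_cast (by omega : 1 ≤ N)
  have hsN : √(N : ℝ) ≤ N := by nlinarith
  have hBc1 : (1 : ℝ) ≤ Bc := by exact_mod_cast (by omega : 1 ≤ Bc)
  -- the parameters
  obtain ⟨Tn, hTn⟩ : ∃ Tn : ℕ, Tn = ⌈L ^ J⌉₊ := ⟨_, rfl⟩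
  have hT1 : L ^ J ≤ Tn := by rw [hTn]; exact Nat.le_ceil _
  have hT2 : (Tn : ℝ) ≤ L ^ J + 1 := by rw [hTn]; exact (Nat.ceil_lt_add_one (by positivity)).le
  have hT0 : 1 ≤ Tn := by
    have : (1 : ℝ) ≤ Tn := (one_le_pow₀ hL1).trans hT1
    exact_mod_cast this
  obtain ⟨Qn, hQn⟩ : ∃ Qn : ℕ, Qn = ⌊L ^ Q⌋₊ := ⟨_, rfl⟩
  have hQn1 : (Qn : ℝ) ≤ L ^ Q := by rw [hQn]; exact Nat.floor_le (by positivity)
  obtain ⟨s, hs⟩ : ∃ s, s = N / Tn + 1 := ⟨_, rfl⟩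
  have hsT : N < Tn * s := by
    rw [hs]
    have := Nat.lt_div_mul_add (a := N) (b := Tn) (by omega)
    calc N < N / Tn * Tn + Tn := this
      _ = Tn * (N / Tn + 1) := by ring
  have hs1' : 1 ≤ s := by rw [hs]; exact Nat.le_add_left 1 _
  obtain ⟨X, hX⟩ : ∃ X, X = Bc * N := ⟨_, rfl⟩
  have hX1 : 1 ≤ X := by rw [hX]; exact Nat.one_le_iff_ne_zero.2 (Nat.mul_ne_zero (by omega) (by omega))
  obtain ⟨I, hI⟩ : ∃ I : ℕ, I = Bc * Tn := ⟨_, rfl⟩
  have hIb : ∀ i, i * s ≤ X → i ≤ I := by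
    intro i hi
    by_contra hlt
    push Not at hlt
    have q1 : Bc * N ≤ Bc * (Tn * s) := Nat.mul_le_mul_left _ hsT.le
    have q2 : I * s < i * s := Nat.mul_lt_mul_of_pos_right hlt hs1'
    rw [hI] at q2
    have q3 : Bc * (Tn * s) = Bc * Tn * s := by ring
    omega
  have hlogX : Real.log X ≤ 2 * L := by
    have q1 : Real.log X = Real.log Bc + L := by
      rw [hX, hLd]
      push_cast
      rw [Real.log_mul (by positivity) hN0.ne']
    have q2 : Real.log (Bc : ℝ) ≤ Real.log ((Bc + 1 : ℕ) : ℝ) := by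
      apply Real.log_le_log (by linarith)
      exact_mod_cast Nat.le_succ _
    linarith
  -- the event
  have hmain := k1 z hz1 hz2 (fun v => Ev v ∧ v ≤ N) (fun v => inferInstance) ?_
  · refine (le_trans (le_of_eq ?_) hmain).trans ?_
    · apply sum_congr rfl
      intro v hv
      have hvN := (mem_SS.1 hv).1.2
      by_cases hEv : Ev v
      · rw [if_pos hEv, if_pos ⟨hEv, hvN⟩]
      · rw [if_neg hEv, if_neg (fun h => hEv h.1)]
    · apply one_div_le_one_div_of_le (by positivity)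
      exact pow_le_pow_right₀ hL1 (by omega)
  -- the family
  obtain ⟨e, _⟩ : ∃ e : (Fin L₁ × Fin (Qn + 1) × Fin (Qn + 1) × Fin (I + 1)) ≃
      Fin (Fintype.card (Fin L₁ × Fin (Qn + 1) × Fin (Qn + 1) × Fin (I + 1))), e = Fintype.equivFin _ := ⟨_, rfl⟩
  refine ⟨c, Fintype.card (Fin L₁ × Fin (Qn + 1) × Fin (Qn + 1) × Fin (I + 1)), fun l n =>
    gw (g (e.symm l).1) ((e.symm l).2.1 : ℕ) ((e.symm l).2.2.1 : ℕ) (((e.symm l).2.2.2 : ℕ) * s) n, ?_, ?_, ?_, ?_⟩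
  · refine hcc.trans ?_
    apply mul_le_mul_of_nonneg_right _ (by positivity)
    exact_mod_cast (by omega : B ≤ Bc)
  · rw [Fintype.card_prod, Fintype.card_prod, Fintype.card_prod, Fintype.card_fin, Fintype.card_fin, Fintype.card_fin]
    push_cast
    have q1 : (Qn : ℝ) + 1 ≤ L ^ (Q + 1) := by
      have : 1 ≤ L ^ Q := one_le_pow₀ hL1
      rw [pow_succ]
      nlinarith
    have q2 : (I : ℝ) + 1 ≤ L ^ (J + 1) := by
      rw [hI]
      push_cast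
      have q3 : 1 ≤ L ^ J := one_le_pow₀ hL1
      have q4 : ((Bc + 2 : ℕ) : ℝ) = Bc + 2 := by push_cast; ring
      calc (Bc : ℝ) * Tn + 1 ≤ Bc * (L ^ J + 1) + 1 := by gcongr
        _ ≤ (2 * (Bc + 2)) * L ^ J := by nlinarith
        _ ≤ L * L ^ J := by
            apply mul_le_mul_of_nonneg_right _ (by positivity)
            rw [q4] at hL
            linarith
        _ = L ^ (J + 1) := by ring
    rw [hT', show T + (2 * (Q + 1) + (J + 1)) = T + ((Q + 1) + ((Q + 1) + (J + 1))) by ring, pow_add, pow_add _ (Q + 1) (Q + 1 + (J + 1)),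
      pow_add _ (Q + 1) (J + 1)]
    gcongr
  · intro l n _ _
    refine (gw_le _ _ _ _ _ (hg _ _)).trans (one_le_pow₀ hL1)
  · rintro v ⟨hEv, hvN⟩
    obtain ⟨m, hm, l, y, d, a, hd1, hdQ, hlt⟩ := hbad v hEv
    refine ⟨m - (c + κ * v), hm, ?_⟩
    by_contra hcon
    push Not at hcon
    -- the bound for `m`
    have hmX : m ≤ X := by
      have a1 := abs_val κ B N v c hcc hvN
      have a2 : |(m : ℤ) - (c + κ * v)| ≤ (N : ℤ) := by
        have a3 : |((m - (c + κ * v) : ℤ) : ℝ)| ≤ N := hm.trans (hA.trans hsN)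
        rw [← Int.cast_abs] at a3
        exact_mod_cast a3
      have a3 := (abs_le.1 a2).2
      have a4 := (abs_le.1 a1).2
      have e3 : ((Bc : ℕ) : ℤ) * N = ((B + κ.natAbs : ℕ) : ℤ) * N + N := by rw [hBc]; push_cast; ring
      have : (m : ℤ) ≤ ((Bc * N : ℕ) : ℤ) := by
        push_cast
        rw [e3]
        linarith
      rw [hX]
      exact_mod_cast this
    have b1 := diff_le z (g l) (hg l) m d a y X hmX hX1
    rw [SD_min] at b1
    obtain ⟨y', hy'⟩ : ∃ y', y' = min y X := ⟨_, rfl⟩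
    rw [← hy'] at b1
    obtain ⟨j, hj⟩ : ∃ j, j = y' / s := ⟨_, rfl⟩
    have hjy : j * s ≤ y' := by rw [hj]; exact Nat.div_mul_le_self _ _
    have hjs : y' ≤ j * s + s := by rw [hj]; exact (Nat.lt_div_mul_add (by omega)).le
    have hyX : y' ≤ X := by rw [hy']; exact min_le_right _ _
    have b2 := step z (g l) (hg l) m d a y' (j * s) s X hmX hjy hjs (2 * L) hlogX (by linarith) (by linarith)
    have hdQn : d < Qn + 1 := by
      rw [hQn]
      exact Nat.lt_succ_of_le (Nat.le_floor hdQ)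
    have haQ : a % d < Qn + 1 := (Nat.mod_lt a (by omega)).trans hdQn
    have hjI : j < I + 1 := Nat.lt_succ_of_le (hIb j (hjy.trans hyX))
    have b3 := hcon (e (l, ⟨d, hdQn⟩, ⟨a % d, haQ⟩, ⟨j, hjI⟩))
    simp only [Equiv.symm_apply_apply] at b3
    have b4 : |SD z (g l) m d a (j * s) X| ≤ N / L ^ U' := by
      rw [SD_mod]
      refine le_trans (le_of_eq ?_) b3
      unfold SD
      rw [← hX]
      congr 1
      apply sum_congr rfl
      intro n _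
      have e5 : c + κ * (v : ℤ) + ((m : ℤ) - (c + κ * v)) = m := by ring
      rw [e5]
    -- the numerical bounds
    have c1 : (N : ℝ) / L ^ U' ≤ N / L ^ (D + 2) := by
      apply div_le_div_of_nonneg_left hN0.le (by positivity)
      exact pow_le_pow_right₀ hL1 (by omega)
    have hP0 : 0 < L ^ (D + 2) := by positivity
    have c2 : (s : ℝ) * (2 * L) ≤ 3 * (N / L ^ (D + 2)) := by
      have q1 : (s : ℝ) ≤ N / Tn + 1 := by
        rw [hs]
        push_cast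
        have := @Nat.cast_div_le ℝ _ _ _ N Tn
        linarith
      have q2 : (N : ℝ) / Tn ≤ N / L ^ J := div_le_div_of_nonneg_left hN0.le (by positivity) hT1
      have q3 : (N : ℝ) / L ^ J * L = N / L ^ (D + 2) := by
        rw [hJ, pow_succ]
        field_simp
      have q4 : 2 * L ≤ N / L ^ (D + 2) := by
        rw [le_div_iff₀ hP0]
        have q5 : 4 * (Bc : ℝ) * L ^ (D + 3) ≤ N := hD.trans hsN
        have q6 : 0 < L ^ (D + 3) := by positivity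
        calc 2 * L * L ^ (D + 2) = 2 * L ^ (D + 3) := by ring
          _ ≤ 4 * (Bc : ℝ) * L ^ (D + 3) := by nlinarith
          _ ≤ N := q5
      calc (s : ℝ) * (2 * L) ≤ (N / L ^ J + 1) * (2 * L) := by
            apply mul_le_mul_of_nonneg_right _ (by linarith)
            linarith
        _ = 2 * (N / L ^ J * L) + 2 * L := by ring
        _ ≤ _ := by rw [q3]; linarith
    have c3 : 2 * √(X : ℝ) * Real.log X ≤ N / L ^ (D + 2) := by
      rw [le_div_iff₀ hP0]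
      have q1 : √(X : ℝ) ≤ Bc * √(N : ℝ) := by
        rw [hX]
        push_cast
        rw [Real.sqrt_mul (by positivity)]
        apply mul_le_mul_of_nonneg_right _ (Real.sqrt_nonneg _)
        rw [Real.sqrt_le_left (by positivity)]
        nlinarith
      have q2 : 0 ≤ √(X : ℝ) := Real.sqrt_nonneg _
      have q3 : 0 ≤ Real.log X := Real.log_natCast_nonneg _
      calc 2 * √(X : ℝ) * Real.log X * L ^ (D + 2) ≤ 2 * (Bc * √(N : ℝ)) * (2 * L) * L ^ (D + 2) := by gcongr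
        _ = (4 * Bc * L ^ (D + 3)) * √(N : ℝ) := by ring
        _ ≤ √(N : ℝ) * √(N : ℝ) := mul_le_mul_of_nonneg_right hD (Real.sqrt_nonneg _)
        _ = N := hss
    have c4 : (N : ℝ) / L ^ D = L ^ 2 * (N / L ^ (D + 2)) := by
      rw [pow_add]
      field_simp
    have c5 : 0 ≤ (N : ℝ) / L ^ (D + 2) := by positivity
    have c6 : |SD z (g l) m d a y' X| ≤ |SD z (g l) m d a (j * s) X| + s * (2 * L) := by
      have := abs_sub_abs_le_abs_sub (SD z (g l) m d a y' X) (SD z (g l) m d a (j * s) X)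
      linarith
    rw [c4] at hlt
    have c7 : 5 * ((N : ℝ) / L ^ (D + 2)) ≤ L ^ 2 * (N / L ^ (D + 2)) := by
      apply mul_le_mul_of_nonneg_right _ c5
      nlinarith
    linarith

/-- the same for the counting measure, for arbitrary sets of primes and for the smooth numbers -/
theorem aw2 (κ : ℤ) (hκ : κ ≠ 0) (K B A T Q D U : ℕ) (δ : ℝ) (hδ : 0 < δ) : ∃ B₀ : ℕ, ∀ E : ℕ, ∃ N₀ : ℕ, ∀ N, N₀ ≤ N →
    ∀ z : ℕ, Real.log N ^ B₀ ≤ z → (z : ℝ) ≤ Real.log N ^ E → ∀ y₀ : ℕ, (y₀ : ℝ) ≤ Real.log N ^ K →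
    ∀ Ev : ℕ → Prop, ∀ _ : DecidablePred Ev,
    (∃ c : ℤ, |c| ≤ B * N ∧ ∃ L : ℕ, (L : ℝ) ≤ Real.log N ^ T ∧ ∃ g : Fin L → ℕ → ℝ, (∀ l n, |g l n| ≤ 1) ∧ ∀ v, Ev v →
      ∃ m : ℕ, |((m - (c + κ * v) : ℤ) : ℝ)| ≤ Real.log N ^ A ∧ ∃ l, ∃ y d a : ℕ, 1 ≤ d ∧ (d : ℝ) ≤ Real.log N ^ Q ∧
        N / Real.log N ^ D < |PS (g l) m d a y - MS z (g l) m d a y|) →
      (∀ P : Finset ℕ, (∀ p ∈ P, p.Prime ∧ p ≤ y₀) → (y₀ : ℝ) ^ (1 / 2 + δ) ≤ P.card → Real.log N ^ (1 + δ) ≤ P.card →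
        ((((Icc 1 N).filter fun v : ℕ => v.primeFactors ⊆ P).filter Ev).card : ℝ) ≤
          (((Icc 1 N).filter fun v : ℕ => v.primeFactors ⊆ P).card : ℝ) / Real.log N ^ U) ∧
      (Real.log N ^ (1 + δ) ≤ y₀ →
        ((((Icc 1 N).filter fun v : ℕ => ∀ p ∈ v.primeFactors, p ≤ y₀).filter Ev).card : ℝ) ≤
          (((Icc 1 N).filter fun v : ℕ => ∀ p ∈ v.primeFactors, p ≤ y₀).card : ℝ) / Real.log N ^ U) := by
  obtain ⟨δ', N1, hδ', h1⟩ := PR_cond2 δ hδ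
  obtain ⟨B1, hB1⟩ := aw κ hκ K B A T Q D U δ hδ
  obtain ⟨B2, hB2⟩ := aw κ hκ K B A T Q D U δ' hδ'
  refine ⟨B1 + B2, fun E => ?_⟩
  obtain ⟨N2, h2⟩ := hB1 E
  obtain ⟨N3, h3⟩ := hB2 E
  obtain ⟨N4, h4⟩ := ev_L' 1
  refine ⟨N1 + N2 + N3 + N4 + 1, fun N hN z hz1 hz2 y₀ hy' Ev _ hE => ?_⟩
  have hL1 := h4 N (by omega)
  have hz3 : Real.log N ^ B1 ≤ z := (pow_le_pow_right₀ hL1 (by omega)).trans hz1
  have hz4 : Real.log N ^ B2 ≤ z := (pow_le_pow_right₀ hL1 (by omega)).trans hz1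
  refine ⟨fun P hP hcard hcard2 => ?_, fun hyl => ?_⟩
  · exact count P N (by omega) _ Ev (h2 N (by omega) P y₀ ⟨hP, hy', hcard, hcard2⟩ z hz3 hz2 Ev _ hE)
  · rw [smooth_eq]
    obtain ⟨_, g2, g3⟩ := h1 N (by omega) y₀ hyl
    exact count _ N (by omega) _ Ev (h3 N (by omega) (Pool.Agent.N469.SQ.PR y₀) y₀ ⟨fun p hp => Pool.Agent.N469.SQ.mem_PR.1 hp, hy',
      g2, g3⟩ z hz4 hz2 Ev _ hE)

end Pool.Agent.U308.AW
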